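import Pool.Agent.Helper801.SubK

namespace Pool.Agent.Results.MP_7e2af8_co.Classification

open Finset

/-- A is the union of a subgroup H of order p, a subset of the coset a + H and a subset of the
coset -a + H, where a is not in H. -/
def CosetType (p : ℕ) (A : Finset (ZMod p × ZMod p)) : Prop :=
  ∃ (H : AddSubgroup (ZMod p × ZMod p)) (a : ZMod p × ZMod p) (A₁ A₂ : Finset (ZMod p × ZMod p)),
    Nat.card H = p ∧ a ∉ H ∧ (∀ x ∈ A₁, x - a ∈ H) ∧ (∀ x ∈ A₂, x + a ∈ H) ∧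
    (A : Set (ZMod p × ZMod p)) = (H : Set (ZMod p × ZMod p)) ∪ A₁ ∪ A₂

/-- A is the union of a three element subset H₁ of a subgroup H of order p containing 0, a subset
A₁ of a + H and a subset A₂ of -a + H, where a is not in H, and the difference
(sum of A₁) - (sum of A₂) =: t satisfies t = 0 or H₁ = {0, t, -t}. -/
def SmallType (p : ℕ) (A : Finset (ZMod p × ZMod p)) : Prop :=
  ∃ (H : AddSubgroup (ZMod p × ZMod p)) (a t : ZMod p × ZMod p)
    (H₁ A₁ A₂ : Finset (ZMod p × ZMod p)),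
    Nat.card H = p ∧ a ∉ H ∧ (∀ x ∈ H₁, x ∈ H) ∧ (∀ x ∈ A₁, x - a ∈ H) ∧ (∀ x ∈ A₂, x + a ∈ H) ∧
    A = H₁ ∪ A₁ ∪ A₂ ∧ 0 ∈ H₁ ∧ H₁.card = 3 ∧ t = ∑ x ∈ A₁, x - ∑ x ∈ A₂, x ∧
    (t = 0 ∨ H₁ = {0, t, -t})

/-- For every prime p at least 5 the subsets of size 2p-2 of the group which do not span it are
exactly the sets of coset type and, for p = 5 only, the sets of small type. -/
theorem result (p : ℕ) (hp : p.Prime) (hp5 : 5 ≤ p) (A : Finset (ZMod p × ZMod p))
    (hA : A.card = 2 * p - 2) :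
    (∃ g : ZMod p × ZMod p, g ∉ A.subsetSum) ↔ CosetType p A ∨ (p = 5 ∧ SmallType p A) := by
  classical
  have hmain := Pool.Agent.Helper801.SubK.main p hp hp5 A hA
  have h1 : (∃ g : ZMod p × ZMod p, g ∉ A.subsetSum) ↔
      ¬ (∀ g : ZMod p × ZMod p, ∃ B ⊆ A, ∑ x ∈ B, x = g) := by
    push Not
    refine exists_congr fun g => ?_
    rw [mem_subsetSum_iff]
    push Not
    rfl
  rw [h1, hmain]
  constructor
  · rintro ⟨H, a, H₁, A₁, A₂, hH, ha, hA', h0, h1, h2, h3 | ⟨h5, h6, h7, h8⟩⟩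
    · left
      refine ⟨H, a, A₁, A₂, hH, ha, h1, h2, ?_⟩
      have h4 : (H₁ : Set (ZMod p × ZMod p)) = (H : Set (ZMod p × ZMod p)) := by
        ext x
        exact ⟨fun hx => h0 x hx, fun hx => h3 x hx⟩
      rw [hA']
      push_cast
      rw [h4]
    · right
      refine ⟨h5, H, a, ∑ x ∈ A₁, x - ∑ x ∈ A₂, x, H₁, A₁, A₂, hH, ha, h0, h1, h2, hA', h6, h7, rfl, ?_⟩
      rcases h8 with h8 | h8
      · left; exact h8
      · right
        rw [neg_sub]; exact h8
  · rintro (⟨H, a, A₁, A₂, hH, ha, h1, h2, h3⟩ | ⟨h5, H, a, t, H₁, A₁, A₂, hH, ha, h0, h1, h2, hA', h6, h7,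
      rfl, h8⟩)
    · refine ⟨H, a, A.filter (fun x => x ∈ H), A₁, A₂, hH, ha, ?_, ?_, h1, h2, Or.inl ?_⟩
      · apply Finset.coe_injective
        push_cast
        ext x
        have h4 : x ∈ (A : Set (ZMod p × ZMod p)) ↔
            x ∈ (H : Set (ZMod p × ZMod p)) ∪ (A₁ : Set (ZMod p × ZMod p)) ∪
              (A₂ : Set (ZMod p × ZMod p)) := by rw [h3]
        simp only [Set.mem_union, Set.mem_setOf_eq, Finset.mem_coe, SetLike.mem_coe] at h4 ⊢
        tauto
      · intro x hx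
        exact (mem_filter.mp hx).2
      · intro x hx
        rw [mem_filter]
        refine ⟨?_, hx⟩
        have h4 : x ∈ (A : Set (ZMod p × ZMod p)) := by
          rw [h3]; left; left; exact hx
        exact h4
    · refine ⟨H, a, H₁, A₁, A₂, hH, ha, hA', h0, h1, h2, Or.inr ⟨h5, h6, h7, ?_⟩⟩
      rcases h8 with h8 | h8
      · left; exact h8
      · right
        rw [neg_sub] at h8; exact h8

end Pool.Agent.Results.MP_7e2af8_co.Classification
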